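import Mathlib
import Pool.Agent.V11167.ClubDefs
import Pool.Agent.V11167.ClubA
import Pool.Agent.V11167.ClubB
import Pool.Agent.V11167.ClubC
import Pool.Agent.V11167.ClubD
import Pool.Agent.V11167.ClubE

/-!
Diameter-2 parts in maximum-density graph partitions: every finite graph has an optimal partition
all of whose parts have diameter at most three; two vertices of a part at distance three cannot
both have small part-degree; and parts with at most ten vertices, or all of whose vertices have
degree at most six, have diameter at most two. Moreover the complement of the graph induced by a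
part never has a perfect matching.
-/

namespace Pool.Agent.Results.MP_9c5a5c_co.DiameterThree

open Pool.Agent.V11167.Club

theorem result {V : Type} [Fintype V] [DecidableEq V] (G : SimpleGraph V) :
    ∃ c : V → Fin (Fintype.card V + 1), Optimal G c ∧
    (∀ x y, c x = c y → Near G (cls c (c x)) 3 x y) ∧
    (∀ x y, c x = c y → ¬ Near G (cls c (c x)) 2 x y →
      (((cls c (c x)).card : ℚ) + 2 < 2 * degIn G (cls c (c x)) x ∨
        ((cls c (c x)).card : ℚ) + 2 < 2 * degIn G (cls c (c x)) y)) ∧
    (∀ x y, c x = c y →
      ((cls c (c x)).card ≤ 10 ∨ ∀ v, c v = c x → (G.neighborSet v).ncard ≤ 6) →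
      Near G (cls c (c x)) 2 x y) ∧
    (∀ x, ¬ ∃ τ : V → V, ∀ v, c v = c x →
      c (τ v) = c x ∧ τ (τ v) = v ∧ τ v ≠ v ∧ ¬ G.Adj v (τ v)) :=
  main4 G

end Pool.Agent.Results.MP_9c5a5c_co.DiameterThree
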